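import Pool.Agent.Helper65_CF.Base

/-!
OPT6 and OPT7: options at a token when all swaps are admissible.
-/

namespace Pool.Agent.Helper29_CF.H65

open Finset

section

variable {V B : Type} [Fintype V] [DecidableEq V] [Fintype B] [DecidableEq B] {s : B → Finset V}
  {K F : Finset B} {cap : ℕ} {Q Z : Finset V}

/-- the exchange lemma for an exit `g` at a private point outside `Z`: an option is found, or
`g` is inside `Q` and is a line of a Pasch or of the exceptional kind -/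
theorem exch_use (exch : ExchStmt) (hS : Sys s K cap) (hK : ∀ x, deg s K x ≤ cap)
    (hF : Good s K cap F) (hQ : EO s F Q) {f : B} (hf : f ∈ F) (hfQ : s f ⊆ Q) {p : V}
    (hp : p ∈ s f) (hp1 : deg s F p = 1) (hpZ : p ∉ Z) {g : B} (hg : g ∈ K) (hgF : g ∉ F)
    (hpg : p ∈ s g) :
    (PCert s K F Q ∨ MOpt s K cap F Q Z) ∨
      (s g ⊆ Q ∧ Good s K cap (insert g (F.erase f)) ∧
        (∀ W, EO s (insert g (F.erase f)) W ↔ EO s F W) ∧
        (Pasch s (insert g (inside s F Q)) ∨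
          (∃ a ∈ s f, a ∈ s g ∧ deg s F a = 4 ∧ ∀ b ∈ s f, b ≠ a → deg s F b ≤ 2))) := by
  have hadm := adm_swap hS hK hF.adm hQ hf hfQ hp hp1 hg hgF hpg
  rcases exch s K cap F Q f p g hS hF hQ hf hfQ hp hp1 hg hgF hpg hadm with h | h
  · exact Or.inl (Or.inr ⟨f, hf, hfQ, p, hp, hp1, hpZ, g, hg, hgF, h⟩)
  · obtain ⟨h1, _, h2, h3, h4⟩ := h
    rcases h4 with h4 | h4
    · exact Or.inl (Or.inl ⟨f, hf, hfQ, g, hg, hgF, h4⟩)
    · exact Or.inr ⟨h1, h2, h3, h4⟩

/-- the exchange lemma for an exit `g` inside `Q` -/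
theorem exch_in (exch : ExchStmt) (hS : Sys s K cap) (hK : ∀ x, deg s K x ≤ cap)
    (hF : Good s K cap F) (hQ : EO s F Q) {f : B} (hf : f ∈ F) (hfQ : s f ⊆ Q) {p : V}
    (hp : p ∈ s f) (hp1 : deg s F p = 1) {g : B} (hg : g ∈ K) (hgF : g ∉ F)
    (hpg : p ∈ s g) (hgQ : s g ⊆ Q) :
    Good s K cap (insert g (F.erase f)) ∧ (∀ W, EO s (insert g (F.erase f)) W ↔ EO s F W) := by
  have hadm := adm_swap hS hK hF.adm hQ hf hfQ hp hp1 hg hgF hpg
  rcases exch s K cap F Q f p g hS hF hQ hf hfQ hp hp1 hg hgF hpg hadm with h | h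
  · exfalso
    obtain ⟨u, v, R, _, _, _, hs, hR, hnR, hu, _⟩ := h
    have huQ : u ∈ Q := hgQ (by rw [hs]; simp)
    have he := comp_eq hR hQ.1 hu huQ
    rw [he] at hnR
    exact hnR hQ
  · exact ⟨h.2.2.1, h.2.2.2.1⟩

/-- the option to do nothing -/
theorem concl_self (hF : Good s K cap F) (hQ : EO s F Q)
    (h : PCert s K F Q ∨ MOpt s K cap F Q Z) : OptConcl s K cap F Q Z :=
  ⟨F, fun _ _ => Iff.rfl, hF, hQ, h.imp id Or.inr⟩

/-- the option to make one swap inside `Q` -/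
theorem concl_swap {f g : B} (hfQ : s f ⊆ Q) (hgQ : s g ⊆ Q)
    (hG : Good s K cap (insert g (F.erase f)))
    (hE : ∀ W, EO s (insert g (F.erase f)) W ↔ EO s F W) (hQ : EO s F Q)
    (h : PCert s K (insert g (F.erase f)) Q ∨ MOpt s K cap (insert g (F.erase f)) Q Z) :
    OptConcl s K cap F Q Z :=
  ⟨_, sameOff_swap hfQ hgQ, hG, (hE Q).2 hQ, h.imp id Or.inr⟩

/-- an exceptional exit excludes a Pasch -/
theorem no_pasch (hQ : EO s F Q) {f g : B} (hfQ : s f ⊆ Q) (hgQ : g ∉ inside s F Q) {a : V}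
    (ha : a ∈ s f) (ha4 : deg s F a = 4) : ¬ Pasch s (insert g (inside s F Q)) := by
  intro h
  have h1 := deg_inside hQ.1.2.1 (hfQ ha)
  have h2 := deg_mono (s := s) (subset_insert g (inside s F Q)) a
  rcases h.2.2.2 a with h3 | h3 <;> omega

theorem not_inside {g : B} (h : g ∉ F) : g ∉ inside s F Q := fun hh => h (mem_filter.1 hh).1

end

/-- module OPT6 -/
theorem opt6 (gex : GoodExStmt) (exch : ExchStmt) : Opt6Stmt := by
  intro V B _ _ _ _ s K hS hK F Q Z hF hQ hZ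
  obtain ⟨f, hf, hfQ, p, hp, hp1, hpZ⟩ :=
    exists_private ((gex s K 5 hS).2 F hF) hF.adm hQ hZ
  obtain ⟨g₁, hg₁, g₂, hg₂, hne, hgF₁, hgF₂, hpg₁, hpg₂⟩ := two_unused hF.adm.1 hp1 (hK p).1
  have hK5 : ∀ x, deg s K x ≤ 5 := fun x => (hK x).2
  rcases exch_use (Z := Z) exch hS hK5 hF hQ hf hfQ hp hp1 hpZ hg₁ hgF₁ hpg₁ with
    h₁ | ⟨hs₁, hG₁, hE₁, h₁⟩
  · exact concl_self hF hQ h₁
  rcases exch_use (Z := Z) exch hS hK5 hF hQ hf hfQ hp hp1 hpZ hg₂ hgF₂ hpg₂ with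
    h₂ | ⟨hs₂, hG₂, hE₂, h₂⟩
  · exact concl_self hF hQ h₂
  rcases h₁ with h₁ | ⟨a₁, ha₁, hag₁, ha₁4, hb₁⟩
  · rcases h₂ with h₂ | ⟨a₂, ha₂, hag₂, ha₂4, hb₂⟩
    · have he := pasch_eq (not_inside hgF₁) (not_inside hgF₂) h₁ h₂
      refine concl_swap hfQ hs₁ hG₁ hE₁ hQ (Or.inl ⟨g₁, mem_insert_self _ _, hs₁, g₂, hg₂, ?_,
        he.symm⟩)
      rw [mem_insert, mem_erase]
      rintro (h | h)
      · exact hne h.symm
      · exact hgF₂ h.2
    · exact absurd h₁ (no_pasch hQ hfQ (not_inside hgF₁) ha₂ ha₂4)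
  · rcases h₂ with h₂ | ⟨a₂, ha₂, hag₂, ha₂4, hb₂⟩
    · exact absurd h₂ (no_pasch hQ hfQ (not_inside hgF₂) ha₁ ha₁4)
    · exfalso
      have ha : a₂ = a₁ := by
        by_contra hn
        have := hb₁ a₂ ha₂ hn
        omega
      subst ha
      have h3 := deg_insert_in (s := s) hgF₂ hag₂
      have h4 : g₁ ∉ insert g₂ F := by
        rw [mem_insert]
        rintro (h | h)
        · exact hne h
        · exact hgF₁ h
      have h5 := deg_insert_in (s := s) h4 hag₁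
      have h6 : insert g₁ (insert g₂ F) ⊆ K :=
        insert_subset hg₁ (insert_subset hg₂ hF.adm.1)
      have h7 := deg_mono (s := s) h6 a₂
      have h8 := hK5 a₂
      omega

/-- module OPT7 -/
theorem opt7 (gex : GoodExStmt) (exch : ExchStmt) : Opt7Stmt := by
  intro V B _ _ _ _ s K hS hK hNL F Q Z hF hQ hZ
  have hK4 : ∀ x, deg s K x ≤ 4 := fun x => (hK x).2
  -- no exceptional exits
  have hex : ∀ {F' : Finset B} {f g : B}, F' ⊆ K → g ∈ K → g ∉ F' →
      ¬ ∃ a ∈ s f, a ∈ s g ∧ deg s F' a = 4 ∧ ∀ b ∈ s f, b ≠ a → deg s F' b ≤ 2 := by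
    rintro F' f g hF' hg hgF' ⟨a, _, hag, ha4, _⟩
    have h1 := deg_insert_in (s := s) hgF' hag
    have h2 := deg_mono (s := s) (insert_subset hg hF') a
    have h3 := hK4 a
    omega
  have hcl := hQ.1.2.1
  obtain ⟨f, hf, hfQ, p, hp, hp1, hpZ⟩ :=
    exists_private ((gex s K 4 hS).2 F hF) hF.adm hQ hZ
  obtain ⟨g, hg, hgF, hpg⟩ := one_unused hF.adm.1 hp1 (hK p).1
  rcases exch_use (Z := Z) exch hS hK4 hF hQ hf hfQ hp hp1 hpZ hg hgF hpg with
    h | ⟨hgQ, hG, hE, h⟩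
  · exact concl_self hF hQ h
  rcases h with hP | h
  swap
  · exact absurd h (hex hF.adm.1 hg hgF)
  -- the Pasch
  have hLK : insert g (inside s F Q) ⊆ K :=
    insert_subset hg ((filter_subset _ _).trans hF.adm.1)
  obtain ⟨x, hxZ, hxL, h, hhK, hhL, hxh⟩ : ∃ x, x ∉ Z ∧ x ∈ pts s (insert g (inside s F Q)) ∧
      ∃ b ∈ K, b ∉ insert g (inside s F Q) ∧ x ∈ s b := by
    obtain ⟨x, hx, y, hy, hxy, ⟨b, hb, hbL, hxb⟩, ⟨b', hb', hbL', hyb'⟩⟩ := hNL _ hLK hP
    by_cases hxZ : x ∈ Z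
    · refine ⟨y, ?_, hy, b', hb', hbL', hyb'⟩
      intro hyZ
      exact hxy (card_le_one.1 hZ x hxZ y hyZ)
    · exact ⟨x, hxZ, hx, b, hb, hbL, hxb⟩
  have hxQ : x ∈ Q := by
    obtain ⟨b, hb, hxb⟩ := mem_biUnion.1 hxL
    rw [mem_insert] at hb
    rcases hb with rfl | hb
    · exact hgQ hxb
    · exact (mem_filter.1 hb).2 hxb
  have hhg : h ≠ g := fun hh => hhL (by rw [hh]; exact mem_insert_self _ _)
  have hhF : h ∉ F := fun hh =>
    hhL (mem_insert_of_mem (mem_filter.2 ⟨hh, sub_of_closed hcl hh hxh hxQ⟩))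
  have hdx := deg_inside (s := s) hcl hxQ
  have hgI : g ∉ inside s F Q := not_inside hgF
  have hhI : h ∉ inside s F Q := not_inside hhF
  by_cases hx1 : deg s F x = 1
  · -- `x` is private
    obtain ⟨f', hf', hxf'⟩ := exists_of_deg (s := s) (F := F) (x := x) (by omega)
    have hfQ' := sub_of_closed hcl hf' hxf' hxQ
    rcases exch_use (Z := Z) exch hS hK4 hF hQ hf' hfQ' hxf' hx1 hxZ hhK hhF hxh with
      h' | ⟨hhQ, hG', hE', h'⟩
    · exact concl_self hF hQ h'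
    rcases h' with hP' | h'
    swap
    · exact absurd h' (hex hF.adm.1 hhK hhF)
    have he := pasch_eq hgI hhI hP hP'
    refine concl_swap hfQ hgQ hG hE hQ (Or.inl ⟨g, mem_insert_self _ _, hgQ, h, hhK, ?_,
      he.symm⟩)
    rw [mem_insert, mem_erase]
    rintro (h' | h')
    · exact hhg h'
    · exact hhF h'.2
  · -- `x` is a node
    have hxg : x ∉ s g := by
      rw [pasch_mem hgI hP, hdx]
      exact hx1
    have hx2 : deg s F x = 2 := by
      have h1 := deg_insert_out (s := s) (F := inside s F Q) hxg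
      have h2 := (hF.adm.2 x).1
      rcases hP.2.2.2 x with h3 | h3 <;> omega
    obtain ⟨e₁, he₁, hxe₁⟩ := exists_of_deg (s := s) (F := F) (x := x) (by omega)
    have he₁Q := sub_of_closed hcl he₁ hxe₁ hxQ
    have h1 := deg_erase_in (s := s) he₁ hxe₁
    obtain ⟨e₂, he₂', hxe₂⟩ := exists_of_deg (s := s) (F := F.erase e₁) (x := x) (by omega)
    obtain ⟨he₂₁, he₂⟩ := mem_erase.1 he₂'
    have he₂Q := sub_of_closed hcl he₂ hxe₂ hxQ
    obtain ⟨p₁, hp₁, hp₁1⟩ := (gex s K 4 hS).2 F hF e₁ he₁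
    have hp₁g : p₁ ∈ s g := by
      rw [pasch_mem hgI hP, deg_inside hcl (he₁Q hp₁)]
      exact hp₁1
    obtain ⟨hG', hE'⟩ := exch_in exch hS hK4 hF hQ he₁ he₁Q hp₁ hp₁1 hg hgF hp₁g hgQ
    have hQ' : EO s (insert g (F.erase e₁)) Q := (hE' Q).2 hQ
    have hx1' : deg s (insert g (F.erase e₁)) x = 1 := by
      rw [deg_insert_out hxg]
      omega
    have he₂F' : e₂ ∈ insert g (F.erase e₁) := mem_insert_of_mem he₂'
    have hhF' : h ∉ insert g (F.erase e₁) := by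
      rw [mem_insert, mem_erase]
      rintro (h' | h')
      · exact hhg h'
      · exact hhF h'.2
    rcases exch_use (Z := Z) exch hS hK4 hG' hQ' he₂F' he₂Q hxe₂ hx1' hxZ hhK hhF' hxh with
      h' | ⟨hhQ, _, _, h'⟩
    · exact concl_swap he₁Q hgQ hG' hE' hQ h'
    rcases h' with hP' | h'
    swap
    · exact absurd h' (hex hG'.adm.1 hhK hhF')
    -- the block `h` is parallel to `e₁`
    have he₁I : e₁ ∉ inside s (insert g (F.erase e₁)) Q := by
      intro hh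
      have := (mem_filter.1 hh).1
      rw [mem_insert, mem_erase] at this
      rcases this with h' | h'
      · rw [h'] at he₁
        exact hgF he₁
      · exact h'.1 rfl
    have hPe : Pasch s (insert e₁ (inside s (insert g (F.erase e₁)) Q)) := by
      have heq : insert e₁ (inside s (insert g (F.erase e₁)) Q) = insert g (inside s F Q) := by
        ext b
        simp only [inside, mem_insert, mem_filter, mem_erase]
        constructor
        · rintro (rfl | ⟨rfl | h', hbQ⟩)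
          · exact Or.inr ⟨he₁, he₁Q⟩
          · exact Or.inl rfl
          · exact Or.inr ⟨h'.2, hbQ⟩
        · rintro (rfl | ⟨h', hbQ⟩)
          · exact Or.inr ⟨Or.inl rfl, hgQ⟩
          · by_cases hb : b = e₁
            · exact Or.inl hb
            · exact Or.inr ⟨Or.inr ⟨hb, h'⟩, hbQ⟩
      rw [heq]
      exact hP
    have he := pasch_eq he₁I (not_inside hhF') hPe hP'
    exact concl_self hF hQ (Or.inl ⟨e₁, he₁, he₁Q, h, hhK, hhF, he.symm⟩)

end Pool.Agent.Helper29_CF.H65
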