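import Pool.Agent.Helper29_CF.Stmt

/-!
Basic facts on degrees, components and Pasch configurations, used by OPT6 and OPT7.
-/

namespace Pool.Agent.Helper29_CF.H65

open Finset

section

variable {V B : Type} [DecidableEq V] [DecidableEq B] {s : B → Finset V}

theorem deg_mono {F F' : Finset B} (h : F ⊆ F') (x : V) : deg s F x ≤ deg s F' x :=
  card_le_card (filter_subset_filter _ h)

theorem deg_erase_in {F : Finset B} {f : B} {x : V} (hf : f ∈ F) (hx : x ∈ s f) :
    deg s (F.erase f) x + 1 = deg s F x := by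
  unfold deg
  have h : (F.erase f).filter (fun b => x ∈ s b) = (F.filter (fun b => x ∈ s b)).erase f := by
    ext b
    simp only [mem_filter, mem_erase]
    tauto
  rw [h]
  exact card_erase_add_one (mem_filter.2 ⟨hf, hx⟩)

theorem deg_erase_out {F : Finset B} {f : B} {x : V} (hx : x ∉ s f) :
    deg s (F.erase f) x = deg s F x := by
  unfold deg
  congr 1
  ext b
  simp only [mem_filter, mem_erase]
  constructor
  · rintro ⟨⟨_, h⟩, h'⟩
    exact ⟨h, h'⟩
  · rintro ⟨h, h'⟩
    refine ⟨⟨?_, h⟩, h'⟩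
    rintro rfl
    exact hx h'

theorem deg_insert_in {F : Finset B} {g : B} {x : V} (hg : g ∉ F) (hx : x ∈ s g) :
    deg s (insert g F) x = deg s F x + 1 := by
  have h := deg_erase_in (s := s) (mem_insert_self g F) hx
  rw [erase_insert hg] at h
  exact h.symm

theorem deg_insert_out {F : Finset B} {g : B} {x : V} (hx : x ∉ s g) :
    deg s (insert g F) x = deg s F x := by
  unfold deg
  congr 1
  ext b
  simp only [mem_filter, mem_insert]
  constructor
  · rintro ⟨rfl | h, h'⟩
    · exact absurd h' hx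
    · exact ⟨h, h'⟩
  · rintro ⟨h, h'⟩
    exact ⟨Or.inr h, h'⟩

theorem exists_of_deg {F : Finset B} {x : V} (h : 1 ≤ deg s F x) : ∃ b ∈ F, x ∈ s b := by
  obtain ⟨b, hb⟩ := card_pos.1 (show 0 < (F.filter (fun b => x ∈ s b)).card from h)
  exact ⟨b, (mem_filter.1 hb).1, (mem_filter.1 hb).2⟩

theorem deg_pos {F : Finset B} {x : V} {b : B} (hb : b ∈ F) (hx : x ∈ s b) : 1 ≤ deg s F x :=
  card_pos.2 ⟨b, mem_filter.2 ⟨hb, hx⟩⟩

/-- a block of `F` meeting a closed set is inside it -/
theorem sub_of_closed {F : Finset B} {W : Finset V} (h : Closed s F W) {b : B} (hb : b ∈ F)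
    {x : V} (hx : x ∈ s b) (hxW : x ∈ W) : s b ⊆ W := by
  rcases h b hb with h | h
  · exact h
  · exact absurd hxW (disjoint_left.1 h hx)

/-- for a point of a closed set only the blocks inside count -/
theorem deg_inside {F : Finset B} {Q : Finset V} (h : Closed s F Q) {x : V} (hx : x ∈ Q) :
    deg s (inside s F Q) x = deg s F x := by
  unfold deg inside
  rw [filter_filter]
  congr 1
  ext b
  simp only [mem_filter]
  constructor
  · rintro ⟨hb, _, hx'⟩
    exact ⟨hb, hx'⟩
  · rintro ⟨hb, hx'⟩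
    exact ⟨hb, sub_of_closed h hb hx' hx, hx'⟩

/-- two components with a common point are equal -/
theorem comp_eq {F : Finset B} {W W' : Finset V} (h : IsComp s F W) (h' : IsComp s F W') {x : V}
    (hx : x ∈ W) (hx' : x ∈ W') : W = W' := by
  have hc : Closed s F (W ∩ W') := by
    intro b hb
    rcases h.2.1 b hb with h1 | h1
    · rcases h'.2.1 b hb with h2 | h2
      · exact Or.inl (subset_inter h1 h2)
      · exact Or.inr (h2.mono_right inter_subset_right)
    · exact Or.inr (h1.mono_right inter_subset_left)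
  have hn : (W ∩ W').Nonempty := ⟨x, mem_inter.2 ⟨hx, hx'⟩⟩
  rw [← h.2.2 _ inter_subset_left hn hc]
  exact h'.2.2 _ inter_subset_right hn hc

/-- in a Pasch every block is determined by the three others -/
theorem pasch_mem {I : Finset B} {g : B} (hg : g ∉ I) (h : Pasch s (insert g I)) (x : V) :
    x ∈ s g ↔ deg s I x = 1 := by
  constructor
  · intro hx
    have h1 := deg_insert_in (s := s) hg hx
    rcases h.2.2.2 x with h2 | h2 <;> omega
  · intro hx
    by_contra hn
    have h1 := deg_insert_out (s := s) (F := I) hn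
    rcases h.2.2.2 x with h2 | h2 <;> omega

theorem pasch_eq {I : Finset B} {g g' : B} (hg : g ∉ I) (hg' : g' ∉ I)
    (h : Pasch s (insert g I)) (h' : Pasch s (insert g' I)) : s g = s g' := by
  ext x
  rw [pasch_mem hg h, pasch_mem hg' h']

variable {K F : Finset B} {cap : ℕ} {Q : Finset V}

/-- a block inside an EO component with a private point consists of this point and two nodes -/
theorem node_of_mem (h3 : ∀ b ∈ F, (s b).card ≤ 3) (hQ : EO s F Q) {f : B} (hf : f ∈ F)
    (hfQ : s f ⊆ Q) {p : V} (hp : p ∈ s f) (hp1 : deg s F p = 1) {x : V} (hx : x ∈ s f)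
    (hxp : x ≠ p) : 2 ≤ deg s F x := by
  have h1 := hQ.2.2.1 f hf hfQ
  have hsub : nodes s F (s f) ⊆ (s f).erase p := by
    intro y hy
    obtain ⟨hy1, hy2⟩ := mem_filter.1 hy
    refine mem_erase.2 ⟨?_, hy1⟩
    rintro rfl
    omega
  have hc : ((s f).erase p).card ≤ (nodes s F (s f)).card := by
    rw [h1, card_erase_of_mem hp]
    have := h3 f hf
    omega
  have he := eq_of_subset_of_card_le hsub hc
  have : x ∈ nodes s F (s f) := by
    rw [he]
    exact mem_erase.2 ⟨hxp, hx⟩
  exact (mem_filter.1 this).2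

/-- all swaps are admissible if the degrees of `K` are bounded -/
theorem adm_swap (hS : Sys s K cap) (hK : ∀ x, deg s K x ≤ cap) (hF : Adm s K cap F)
    (hQ : EO s F Q) {f : B} (hf : f ∈ F) (hfQ : s f ⊆ Q) {p : V} (hp : p ∈ s f)
    (hp1 : deg s F p = 1) {g : B} (hg : g ∈ K) (hgF : g ∉ F) (hpg : p ∈ s g) :
    Adm s K cap (insert g (F.erase f)) := by
  have hsub : insert g (F.erase f) ⊆ K :=
    insert_subset hg ((erase_subset f F).trans hF.1)
  refine ⟨hsub, fun x => ⟨?_, (deg_mono hsub x).trans (hK x)⟩⟩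
  by_cases hx : x ∈ s f
  · by_cases hxp : x = p
    · subst hxp
      exact deg_pos (mem_insert_self _ _) hpg
    · have h2 := node_of_mem (fun b hb => hS.le3 b (hF.1 hb)) hQ hf hfQ hp hp1 hx hxp
      have h3 := deg_erase_in (s := s) hf hx
      have h4 := deg_mono (s := s) (subset_insert g (F.erase f)) x
      omega
  · have h3 := deg_erase_out (s := s) (F := F) hx
    have h4 := deg_mono (s := s) (subset_insert g (F.erase f)) x
    have h5 := (hF.2 x).1
    omega

/-- two private points of an EO component in different blocks; one of them is outside `Z` -/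
theorem exists_private (hpriv : ∀ f ∈ F, ∃ p ∈ s f, deg s F p = 1) (hF : Adm s K cap F)
    (hQ : EO s F Q) {Z : Finset V} (hZ : Z.card ≤ 1) :
    ∃ f ∈ F, s f ⊆ Q ∧ ∃ p ∈ s f, deg s F p = 1 ∧ p ∉ Z := by
  obtain ⟨x, hx⟩ := hQ.1.1
  obtain ⟨f, hf, hxf⟩ := exists_of_deg (hF.2 x).1
  have hfQ := sub_of_closed hQ.1.2.1 hf hxf hx
  have h2 := hQ.2.2.1 f hf hfQ
  obtain ⟨a, ha⟩ := card_pos.1 (show 0 < (nodes s F (s f)).card by omega)
  obtain ⟨haf, ha2⟩ := mem_filter.1 ha
  have h3 := deg_erase_in (s := s) hf haf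
  obtain ⟨e, he, hae⟩ := exists_of_deg (s := s) (F := F.erase f) (x := a) (by omega)
  obtain ⟨hef, heF⟩ := mem_erase.1 he
  have heQ := sub_of_closed hQ.1.2.1 heF hae (hfQ haf)
  obtain ⟨p, hp, hp1⟩ := hpriv f hf
  obtain ⟨q, hq, hq1⟩ := hpriv e heF
  by_cases hpZ : p ∈ Z
  · refine ⟨e, heF, heQ, q, hq, hq1, ?_⟩
    intro hqZ
    have hpq : p = q := card_le_one.1 hZ p hpZ q hqZ
    subst hpq
    have h4 := deg_erase_in (s := s) hf hp
    have h5 := deg_pos (s := s) he hq
    omega
  · exact ⟨f, hf, hfQ, p, hp, hp1, hpZ⟩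

/-- two unused blocks -/
theorem two_unused (hFK : F ⊆ K) {p : V} (hp : deg s F p = 1) (hK : 3 ≤ deg s K p) :
    ∃ g₁ ∈ K, ∃ g₂ ∈ K, g₁ ≠ g₂ ∧ g₁ ∉ F ∧ g₂ ∉ F ∧ p ∈ s g₁ ∧ p ∈ s g₂ := by
  have hsub : F.filter (fun b => p ∈ s b) ⊆ K.filter (fun b => p ∈ s b) :=
    filter_subset_filter _ hFK
  have hc := card_sdiff_of_subset hsub
  unfold deg at hp hK
  have h1 : 1 < (K.filter (fun b => p ∈ s b) \ F.filter (fun b => p ∈ s b)).card := by omega
  obtain ⟨g₁, h1, g₂, h2, hne⟩ := one_lt_card.1 h1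
  simp only [mem_sdiff, mem_filter, not_and] at h1 h2
  exact ⟨g₁, h1.1.1, g₂, h2.1.1, hne, fun h => h1.2 h h1.1.2, fun h => h2.2 h h2.1.2, h1.1.2,
    h2.1.2⟩

theorem one_unused (hFK : F ⊆ K) {p : V} (hp : deg s F p = 1) (hK : 2 ≤ deg s K p) :
    ∃ g ∈ K, g ∉ F ∧ p ∈ s g := by
  have hsub : F.filter (fun b => p ∈ s b) ⊆ K.filter (fun b => p ∈ s b) :=
    filter_subset_filter _ hFK
  have hc := card_sdiff_of_subset hsub
  unfold deg at hp hK
  have h1 : 0 < (K.filter (fun b => p ∈ s b) \ F.filter (fun b => p ∈ s b)).card := by omega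
  obtain ⟨g, h1⟩ := card_pos.1 h1
  simp only [mem_sdiff, mem_filter, not_and] at h1
  exact ⟨g, h1.1.1, fun h => h1.2 h h1.1.2, h1.1.2⟩

/-- exchanging blocks inside `Q` changes nothing outside -/
theorem sameOff_swap {f g : B} (hfQ : s f ⊆ Q) (hgQ : s g ⊆ Q) :
    SameOff s F (insert g (F.erase f)) Q := by
  intro b hb
  rw [mem_insert, mem_erase]
  constructor
  · intro h
    refine Or.inr ⟨?_, h⟩
    rintro rfl
    exact hb hfQ
  · rintro (rfl | h)
    · exact absurd hgQ hb
    · exact h.2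

end

end Pool.Agent.Helper29_CF.H65
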